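import Pool.Agent.H320Z.PDRed

set_option autoImplicit false

/-! Deciding whether the partition dimension of a tree is at most `k` is NP-hard under
polynomial-time many-one reductions. -/

namespace Pool.Agent.Results.MP_2fd452_lc.NPHardTrees

open Pool.Agent.NPC Pool.Agent.NPC.R671 Pool.Agent.H320Z.PD

theorem result (L : Set (List Bool)) (hL : InNP L) :
    ∃ (n : List Bool → ℕ) (T : ∀ x, SimpleGraph (Fin (n x))) (k : List Bool → ℕ),
      PolyTime (fun x => bits (adjMatrix (T x), k x)) ∧ (∀ x, (T x).IsTree ∧ 0 < k x) ∧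
      ∀ x, x ∈ L ↔ pd (T x) ≤ k x :=
  main L hL

end Pool.Agent.Results.MP_2fd452_lc.NPHardTrees
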